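import Pool.Agent.W2helper75.FD.Stm2

/-!
# Piece SRV of project FD, part 2: assembly of the branching process
-/

set_option autoImplicit false
set_option linter.unusedSectionVars false

open MeasureTheory ProbabilityTheory Filter Topology
open scoped ENNReal NNReal

namespace Pool.Agent.W2helper71.FD

open Pool.Agent.W2helper75.FD

section Walk

variable {Γ : Type} [Group Γ] {S : Finset Γ}

theorem pos_succ (c : ℕ → S) (k : ℕ) : pos c (k + 1) = pos c k * (c k : Γ) := rfl

theorem pth_mul (g : Γ) (c : ℕ → S) (k : ℕ) : pth (mg S) g c k = g * pos c k := by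
  induction k with
  | zero => exact (mul_one g).symm
  | succ k ih =>
    rw [pos_succ, ← mul_assoc, ← ih]
    rfl

theorem pos_congr (c c' : ℕ → S) (N : ℕ) (h : ∀ i < N, c i = c' i) :
    ∀ k ≤ N, pos c k = pos c' k := by
  intro k
  induction k with
  | zero => intro _; rfl
  | succ k ih =>
    intro hk
    rw [pos_succ, pos_succ, ih (by omega), h k (by omega)]

theorem pos_mem {h : Γ → ℤ} {M : Set Γ} (hM : IsCone S h M) (c : ℕ → S) (n : ℕ)
    (hn : ∀ k ≤ n, 0 ≤ h (pos c k)) : pos c n ∈ M := by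
  induction n with
  | zero => exact hM.one
  | succ n ih =>
    exact hM.stp _ (ih fun k hk => hn k (by omega)) _ (c n).2 (hn (n + 1) le_rfl)

theorem spec_congr (h : Γ → ℤ) (M : Set Γ) (N : ℕ) (c c' : ℕ → S)
    (hc : ∀ i < N, c i = c' i) (n : ℕ) : Spec h M N c n → Spec h M N c' n := by
  rintro ⟨h1, h2, h3, h4⟩
  have hp := pos_congr c c' N hc
  refine ⟨h1, h2, fun k hk => ?_, fun k hk hkn => ?_⟩
  · rw [← hp k (by omega)]; exact h3 k hk
  · rw [← hp n h2, ← hp k hk]; exact h4 k hk hkn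

end Walk

theorem meas_dep {S : Type} [Fintype S] [Nonempty S] [MeasurableSpace S]
    [DiscreteMeasurableSpace S] (N : ℕ) (P : (ℕ → S) → Prop)
    (hP : ∀ c c', (∀ i < N, c i = c' i) → P c → P c') : MeasurableSet {c | P c} := by
  classical
  let E : (Fin N → S) → (ℕ → S) := fun f i =>
    if h : i < N then f ⟨i, h⟩ else Classical.arbitrary S
  have e : {c | P c} = (fun c : ℕ → S => fun i : Fin N => c i) ⁻¹' {f | P (E f)} := by
    ext c
    constructor
    · intro h; exact hP c _ (fun i hi => by simp [E, hi]) h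
    · intro h; exact hP _ c (fun i hi => by simp [E, hi]) h
  rw [e]
  exact (measurable_pi_iff.mpr fun i => measurable_pi_apply _) (Set.toFinite _).measurableSet

section Data

variable {S : Type}

/-- the waiting times are good -/
def Tg (N : ℕ) (t : ℝ) : Set (ℕ → ℝ) := {c | ∀ k ≤ N, ∑ j ∈ Finset.range k, c j ≤ t}

theorem meas_Tg (N : ℕ) (t : ℝ) : MeasurableSet (Tg N t) := by
  have e : Tg N t = ⋂ k : ℕ, ⋂ _ : k ≤ N, {c : ℕ → ℝ | ∑ j ∈ Finset.range k, c j ≤ t} := by
    ext c
    simp only [Tg, Set.mem_ofPred_eq, Set.mem_iInter]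
  rw [e]
  refine MeasurableSet.iInter fun k => MeasurableSet.iInter fun _ => ?_
  exact measurableSet_le (Finset.measurable_sum _ fun j _ => measurable_pi_apply j)
    measurable_const

theorem Tg_mono (N : ℕ) {t t' : ℝ} (h : t ≤ t') : Tg N t ⊆ Tg N t' :=
  fun _ hc k hk => (hc k hk).trans h

theorem exists_Tg (N : ℕ) : ∃ t0 : ℝ, ∀ t ≥ t0, (1 / 2 : ℝ≥0∞) ≤ tlaw (Tg N t) := by
  have hU : ⋃ m : ℕ, Tg N m = Set.univ := by
    rw [Set.eq_univ_iff_forall]
    intro c
    rw [Set.mem_iUnion]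
    obtain ⟨m, hm⟩ := exists_nat_ge (∑ k ∈ Finset.range (N + 1), |∑ j ∈ Finset.range k, c j|)
    refine ⟨m, fun k hk => ?_⟩
    refine le_trans (le_abs_self _) (le_trans ?_ hm)
    exact Finset.single_le_sum (f := fun k => |∑ j ∈ Finset.range k, c j|)
      (fun _ _ => abs_nonneg _) (Finset.mem_range.mpr (by omega))
  have ht := tendsto_measure_iUnion_atTop (μ := tlaw) (s := fun m : ℕ => Tg N m)
    (fun a b hab => Tg_mono N (by exact_mod_cast hab))
  rw [hU, measure_univ] at ht
  have h2 : (1 / 2 : ℝ≥0∞) < 1 := by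
    rw [one_div]
    exact ENNReal.inv_lt_one.mpr ENNReal.one_lt_two
  obtain ⟨m, hm⟩ := (ht.eventually (lt_mem_nhds h2)).exists
  exact ⟨m, fun t htm => hm.le.trans (measure_mono (Tg_mono N htm))⟩

/-- good data of a vertex -/
def Gd (N : ℕ) (t : ℝ) (d : Dat S) : Prop := 0 < d.1 ∧ (d.2 0).1 ∈ Tg N t

variable [Fintype S] [Nonempty S] [MeasurableSpace S] [DiscreteMeasurableSpace S]

theorem set_eq (N : ℕ) (t : ℝ) (P : (ℕ → S) → Prop) :
    {d : Dat S | Gd N t d ∧ P (d.2 0).2} =
      ({k : ℕ | 0 < k}) ×ˢ ((fun q : ℕ → Par S => q 0) ⁻¹' (Tg N t ×ˢ {c | P c})) := by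
  ext d
  simp only [Gd, Set.mem_ofPred_eq, Set.mem_prod, Set.mem_preimage, and_assoc]

theorem meas_Gd (N : ℕ) (t : ℝ) (P : (ℕ → S) → Prop) (hP : MeasurableSet {c | P c}) :
    MeasurableSet {d : Dat S | Gd N t d ∧ P (d.2 0).2} := by
  rw [set_eq]
  exact (MeasurableSet.of_discrete).prod (measurable_pi_apply 0 ((meas_Tg N t).prod hP))

theorem dlaw_Gd (lam : ℝ≥0) (N : ℕ) (t : ℝ) (P : (ℕ → S) → Prop) (hP : MeasurableSet {c | P c}) :
    dlaw S lam {d : Dat S | Gd N t d ∧ P (d.2 0).2} =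
      poissonMeasure lam {k : ℕ | 0 < k} * (tlaw (Tg N t) * mlaw S {c | P c}) := by
  rw [set_eq]
  unfold dlaw
  rw [Measure.prod_prod]
  congr 1
  have h1 : MeasurableSet (Tg N t ×ˢ {c | P c}) := (meas_Tg N t).prod hP
  have h2 := (measurePreserving_eval_infinitePi
      (fun _ : ℕ => plaw S) 0).measure_preimage h1.nullMeasurableSet
  refine h2.trans ?_
  unfold plaw
  rw [Measure.prod_prod]

end Data

section Children

variable {Γ : Type} [Group Γ] {S : Finset Γ}

/-- the special times -/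
noncomputable def specs (h : Γ → ℤ) (M : Set Γ) (N : ℕ) (c : ℕ → S) : Finset ℕ := by
  classical exact (Finset.range (N + 1)).filter (Spec h M N c)

theorem mem_specs {h : Γ → ℤ} {M : Set Γ} {N : ℕ} {c : ℕ → S} {n : ℕ} :
    n ∈ specs h M N c ↔ Spec h M N c n := by
  classical
  unfold specs
  rw [Finset.mem_filter, Finset.mem_range]
  constructor
  · exact fun h => h.2
  · exact fun h => ⟨by have := h.2.1; omega, h⟩

/-- the children -/
noncomputable def chd (h : Γ → ℤ) (M : Set Γ) (N : ℕ) (t : ℝ) (g : Γ) (d : Dat S) :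
    Finset Γ := by
  classical exact if Gd N t d then
    (specs h M N (d.2 0).2).image (fun n => g * pos (d.2 0).2 n) else ∅

theorem mem_chd {h : Γ → ℤ} {M : Set Γ} {N : ℕ} {t : ℝ} {g : Γ} {d : Dat S} {x : Γ} :
    x ∈ chd h M N t g d ↔ Gd N t d ∧ ∃ n, Spec h M N (d.2 0).2 n ∧ g * pos (d.2 0).2 n = x := by
  classical
  unfold chd
  by_cases hg : Gd N t d
  · rw [if_pos hg, Finset.mem_image]
    simp only [mem_specs]
    exact ⟨fun h => ⟨hg, h⟩, fun h => h.2⟩
  · rw [if_neg hg]
    simp [hg]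

theorem spec_inj {h : Γ → ℤ} {M : Set Γ} (hM : IsCone S h M) {N : ℕ} {c : ℕ → S} {n n' : ℕ}
    (h1 : Spec h M N c n) (h2 : Spec h M N c n') (he : pos c n = pos c n') : n = n' := by
  by_contra hne
  refine h1.2.2.2 n' h2.2.1 (fun h => hne h.symm) ?_
  rw [← he, inv_mul_cancel]
  exact hM.one

theorem card_chd {h : Γ → ℤ} {M : Set Γ} (hM : IsCone S h M) (N : ℕ) (t : ℝ) (g : Γ)
    (d : Dat S) : ((chd h M N t g d).card : ℝ≥0∞) = ∑ n ∈ Finset.range (N + 1),
      ({d : Dat S | Gd N t d ∧ Spec h M N (d.2 0).2 n}.indicator 1 d : ℝ≥0∞) := by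
  classical
  by_cases hg : Gd N t d
  · have e1 : (chd h M N t g d).card = (specs h M N (d.2 0).2).card := by
      unfold chd
      rw [if_pos hg]
      refine Finset.card_image_of_injOn fun n hn n' hn' he => ?_
      exact spec_inj hM (mem_specs.mp hn) (mem_specs.mp hn') (mul_left_cancel he)
    have e2 : (specs h M N (d.2 0).2).card = ((Finset.range (N + 1)).filter
        (Spec h M N (d.2 0).2)).card := by
      congr 1
    rw [e1, e2, Finset.card_filter, Nat.cast_sum]
    refine Finset.sum_congr rfl fun n _ => ?_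
    by_cases hs : Spec h M N (d.2 0).2 n
    · have hmem : d ∈ {d : Dat S | Gd N t d ∧ Spec h M N (d.2 0).2 n} := ⟨hg, hs⟩
      rw [if_pos hs, Set.indicator_of_mem hmem, Nat.cast_one, Pi.one_apply]
    · have hmem : d ∉ {d : Dat S | Gd N t d ∧ Spec h M N (d.2 0).2 n} := fun h => hs h.2
      rw [if_neg hs, Set.indicator_of_notMem hmem, Nat.cast_zero]
  · have e1 : (chd h M N t g d).card = 0 := by
      unfold chd
      rw [if_neg hg, Finset.card_empty]
    rw [e1]
    symm
    rw [Nat.cast_zero]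
    refine Finset.sum_eq_zero fun n _ => ?_
    rw [Set.indicator_of_notMem]
    exact fun h => hg h.1

theorem card_chd_le {h : Γ → ℤ} {M : Set Γ} (N : ℕ) (t : ℝ) (g : Γ)
    (d : Dat S) : (chd h M N t g d).card ≤ N + 1 := by
  classical
  unfold chd
  split_ifs
  · refine Finset.card_image_le.trans ?_
    refine (Finset.card_le_card (t := Finset.range (N + 1)) fun n hn => ?_).trans
      (Finset.card_range _).le
    have := (mem_specs.mp hn).2.1
    exact Finset.mem_range.mpr (by omega)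
  · simp

end Children

section Main

variable {Γ : Type} [Group Γ] {S : Finset Γ} [Nonempty S]
  [MeasurableSpace S] [DiscreteMeasurableSpace S]

theorem meas_spec (h : Γ → ℤ) (M : Set Γ) (N n : ℕ) :
    MeasurableSet {c : ℕ → S | Spec h M N c n} :=
  meas_dep N _ fun c c' hc => spec_congr h M N c c' hc n

theorem meas_chd (h : Γ → ℤ) (M : Set Γ) (N : ℕ) (t : ℝ) (g : Γ) (F : Finset Γ) :
    MeasurableSet {d : Dat S | chd h M N t g d = F} := by
  classical
  have hA : MeasurableSet {d : Dat S | Gd N t d ∧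
      (specs h M N (d.2 0).2).image (fun n => g * pos (d.2 0).2 n) = F} := by
    refine meas_Gd N t (fun c => (specs h M N c).image (fun n => g * pos c n) = F) ?_
    refine meas_dep N _ fun c c' hc hF => ?_
    rw [← hF]
    ext x
    simp only [Finset.mem_image, mem_specs]
    have hp := pos_congr c c' N hc
    constructor
    · rintro ⟨n, hn, rfl⟩
      have h2 := spec_congr h M N c' c (fun i hi => (hc i hi).symm) n hn
      exact ⟨n, h2, by rw [hp n hn.2.1]⟩
    · rintro ⟨n, hn, rfl⟩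
      exact ⟨n, spec_congr h M N c c' hc n hn, by rw [hp n hn.2.1]⟩
  have hG : MeasurableSet {d : Dat S | Gd N t d} := by
    have := meas_Gd (S := S) N t (fun _ => True) (by simp)
    simpa using this
  have e : {d : Dat S | chd h M N t g d = F} = {d : Dat S | Gd N t d ∧
      (specs h M N (d.2 0).2).image (fun n => g * pos (d.2 0).2 n) = F} ∪
      ({d : Dat S | Gd N t d}ᶜ ∩ {_d : Dat S | (∅ : Finset Γ) = F}) := by
    ext d
    simp only [Set.mem_ofPred_eq, Set.mem_union, Set.mem_inter_iff, Set.mem_compl_iff]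
    unfold chd
    by_cases hg : Gd N t d
    · simp [hg]
    · simp [hg]
  rw [e]
  exact hA.union (hG.compl.inter (MeasurableSet.const _))

theorem meas_alive [Countable Γ] {D : Type} [MeasurableSpace D] (ch : Γ → D → Finset Γ)
    (hch : ∀ v F, MeasurableSet {d | ch v d = F}) (m : ℕ) :
    ∀ v, MeasurableSet {ω : Γ → D | Alive ch ω m v} := by
  induction m with
  | zero => intro v; simp only [Alive]; exact MeasurableSet.const _
  | succ m ih =>
    intro v
    have e : {ω : Γ → D | Alive ch ω (m + 1) v} =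
        ⋃ F : Finset Γ, ({ω : Γ → D | ω v ∈ {d | ch v d = F}} ∩
          ⋃ x : Γ, ⋃ _ : x ∈ F, {ω : Γ → D | Alive ch ω m x}) := by
      ext ω
      simp only [Alive, Set.mem_ofPred_eq, Set.mem_iUnion, Set.mem_inter_iff]
      constructor
      · rintro ⟨x, hx, h⟩
        exact ⟨_, rfl, x, hx, h⟩
      · rintro ⟨F, rfl, x, hx, h⟩
        exact ⟨x, hx, h⟩
    rw [e]
    refine MeasurableSet.iUnion fun F => (measurable_pi_apply v (hch v F)).inter ?_
    exact MeasurableSet.iUnion fun x => MeasurableSet.iUnion fun _ => ih x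

theorem alive_anti {D : Type} (ch : Γ → D → Finset Γ) (ω : Γ → D) (m : ℕ) :
    ∀ v, Alive ch ω (m + 1) v → Alive ch ω m v := by
  induction m with
  | zero => intro v _; trivial
  | succ m ih =>
    intro v hv
    obtain ⟨x, hx, h⟩ := hv
    exact ⟨x, hx, ih x h⟩

theorem alive_visited {h : Γ → ℤ} {M : Set Γ} (hM : IsCone S h M) (N : ℕ) (t : ℝ)
    (ω : Γ → Dat S) (m : ℕ) : ∀ v, Visited (mg S) t 1 ω v → Alive (chd h M N t) ω m v →
      ∃ F : Finset Γ, F.card = m + 1 ∧ ∀ x ∈ F, Visited (mg S) t 1 ω x ∧ v⁻¹ * x ∈ M := by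
  classical
  induction m with
  | zero =>
    intro v hv _
    refine ⟨{v}, by simp, fun x hx => ?_⟩
    rw [Finset.mem_singleton] at hx
    subst hx
    exact ⟨hv, by rw [inv_mul_cancel]; exact hM.one⟩
  | succ m ih =>
    intro v hv hA
    obtain ⟨x, hx, hA⟩ := hA
    obtain ⟨⟨hd, hT⟩, n, hn, rfl⟩ := mem_chd.mp hx
    have hx2 : Visited (mg S) t 1 ω (v * pos ((ω v).2 0).2 n) := by
      refine Visited.step v _ hv ⟨0, hd, n, hT n hn.2.1, ?_⟩
      exact pth_mul v _ n
    obtain ⟨F, hF, hF2⟩ := ih _ hx2 hA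
    have hn0 : (pos ((ω v).2 0).2 n)⁻¹ ∉ M := by
      have h1 := hn.2.2.2 0 (Nat.zero_le _) (by have := hn.1; omega)
      have h2 : pos ((ω v).2 0).2 0 = 1 := rfl
      rwa [h2, mul_one] at h1
    have hnM : pos ((ω v).2 0).2 n ∈ M := pos_mem hM _ n hn.2.2.1
    refine ⟨insert v F, ?_, fun y hy => ?_⟩
    · rw [Finset.card_insert_of_notMem, hF]
      intro hvF
      apply hn0
      have := (hF2 v hvF).2
      rwa [mul_inv_rev, mul_assoc, inv_mul_cancel, mul_one] at this
    · rw [Finset.mem_insert] at hy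
      rcases hy with rfl | hy
      · exact ⟨hv, by rw [inv_mul_cancel]; exact hM.one⟩
      · refine ⟨(hF2 y hy).1, ?_⟩
        have h1 := hM.mul _ hnM _ (hF2 y hy).2
        have e : pos ((ω v).2 0).2 n * ((v * pos ((ω v).2 0).2 n)⁻¹ * y) = v⁻¹ * y := by group
        rwa [e] at h1

end Main

/-- SRV -/
theorem srv (h1 : P_GWS) (h2 : P_OFF) : P_SRV := by
  intro Γ _ _ S _ _ _ h M hM hS lam hlam
  classical
  set p := poissonMeasure lam {k : ℕ | 0 < k} with hp
  have hp0 : p ≠ 0 := by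
    intro h0
    have h1 : poissonMeasure lam ({1} : Set ℕ) ≤ 0 := by
      rw [← h0, hp]
      refine measure_mono ?_
      intro k hk
      rw [Set.mem_singleton_iff] at hk
      rw [hk]
      exact Nat.one_pos
    rw [poissonMeasure_singleton] at h1
    have h2 : (0 : ℝ) < lam := hlam
    have h3 : 0 < Real.exp (-(lam : ℝ)) * (lam : ℝ) ^ 1 / (Nat.factorial 1 : ℝ) := by positivity
    exact absurd h1 (not_le.2 (ENNReal.ofReal_pos.2 h3))
  have hp1 : p ≠ ⊤ := measure_ne_top _ _
  obtain ⟨N, hN⟩ := hS (4 / p) (ENNReal.div_ne_top (by norm_num) hp0)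
  obtain ⟨t0, ht0⟩ := exists_Tg N
  obtain ⟨r, hr0, hr1, hr⟩ := h2 (N + 1)
  refine ⟨t0, fun t ht => ?_⟩
  have hT := ht0 t ht
  -- the law of the number of children
  have hcard : ∀ g : Γ, Measurable fun d : Dat S => (chd h M N t g d).card := by
    intro g
    refine measurable_to_countable' fun k => ?_
    have e : (fun d : Dat S => (chd h M N t g d).card) ⁻¹' {k} =
        ⋃ F : Finset Γ, ⋃ _ : F.card = k, {d : Dat S | chd h M N t g d = F} := by
      ext d
      simp only [Set.mem_preimage, Set.mem_singleton_iff, Set.mem_iUnion, Set.mem_ofPred_eq,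
        exists_prop]
      constructor
      · intro h; exact ⟨_, h, rfl⟩
      · rintro ⟨F, h, rfl⟩; exact h
    rw [e]
    exact MeasurableSet.iUnion fun F => MeasurableSet.iUnion fun _ => meas_chd h M N t g F
  have hmean : ∀ g : Γ, 2 ≤ ∫⁻ d, ((chd h M N t g d).card : ℝ≥0∞) ∂(dlaw S lam) := by
    intro g
    have e1 : ∫⁻ d, ((chd h M N t g d).card : ℝ≥0∞) ∂(dlaw S lam) =
        ∑ n ∈ Finset.range (N + 1), p * (tlaw (Tg N t) * mlaw S {c | Spec h M N c n}) := by
      simp_rw [card_chd hM N t g]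
      rw [lintegral_finsetSum]
      · refine Finset.sum_congr rfl fun n _ => ?_
        rw [lintegral_indicator_one (meas_Gd N t (fun c => Spec h M N c n) (meas_spec h M N n))]
        exact dlaw_Gd lam N t (fun c => Spec h M N c n) (meas_spec h M N n)
      · intro n _
        exact measurable_one.indicator
          (meas_Gd N t (fun c => Spec h M N c n) (meas_spec h M N n))
    rw [e1, ← Finset.mul_sum, ← Finset.mul_sum]
    calc (2 : ℝ≥0∞) = p * (1 / 2 * (4 / p)) := by
          rw [ENNReal.div_eq_inv_mul (a := 4), ← mul_assoc (1 / 2), mul_comm (1 / 2 : ℝ≥0∞),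
            ← mul_assoc, ← mul_assoc, ENNReal.mul_inv_cancel hp0 hp1, one_mul]
          rw [show (4 : ℝ≥0∞) = 2 * 2 by norm_num, ← mul_assoc, one_div,
            ENNReal.inv_mul_cancel two_ne_zero ENNReal.ofNat_ne_top, one_mul]
      _ ≤ _ := by gcongr
  have hint : ∀ g : Γ, ∫⁻ d, (1 - r) ^ (chd h M N t g d).card ∂(dlaw S lam) ≤ 1 - r := fun g =>
    hr (Dat S) (dlaw S lam) _ (hcard g) (fun d => card_chd_le N t g d) (hmean g)
  have hgws : ∀ m, r ≤ law Γ S lam {ω | Alive (chd h M N t) ω m 1} := by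
    intro m
    refine h1 Γ (Dat S) (dlaw S lam) (fun g => {y | g⁻¹ * y ∈ M}) (chd h M N t)
      (meas_chd h M N t) (fun v => ?_) (fun v d x hx => ?_) (fun v d x hx y hy hxy => ?_)
      r hr1 hint m 1
    · show v⁻¹ * v ∈ M
      rw [inv_mul_cancel]; exact hM.one
    · obtain ⟨_, n, hn, rfl⟩ := mem_chd.mp hx
      have hnM : pos (d.2 0).2 n ∈ M := pos_mem hM _ n hn.2.2.1
      constructor
      · intro y hy
        have hy' : (v * pos (d.2 0).2 n)⁻¹ * y ∈ M := hy
        show v⁻¹ * y ∈ M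
        have h1 := hM.mul _ hnM _ hy'
        have e : pos (d.2 0).2 n * ((v * pos (d.2 0).2 n)⁻¹ * y) = v⁻¹ * y := by group
        rwa [e] at h1
      · intro hv
        have hv' : (v * pos (d.2 0).2 n)⁻¹ * v ∈ M := hv
        rw [mul_inv_rev, mul_assoc, inv_mul_cancel, mul_one] at hv'
        have h1 := hn.2.2.2 0 (Nat.zero_le _) (by have := hn.1; omega)
        have h2 : pos (d.2 0).2 0 = 1 := rfl
        rw [h2, mul_one] at h1
        exact h1 hv'
    · obtain ⟨_, n, hn, rfl⟩ := mem_chd.mp hx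
      obtain ⟨_, n', hn', rfl⟩ := mem_chd.mp hy
      have hne : n ≠ n' := fun h => hxy (by rw [h])
      rw [Set.disjoint_left]
      intro z hz hz'
      rcases hM.dis _ _ z hz hz' with h3 | h3
      · have e : (v * pos (d.2 0).2 n)⁻¹ * (v * pos (d.2 0).2 n') =
          (pos (d.2 0).2 n)⁻¹ * pos (d.2 0).2 n' := by group
        rw [e] at h3
        exact hn.2.2.2 n' hn'.2.1 (fun h => hne h.symm) h3
      · have e : (v * pos (d.2 0).2 n')⁻¹ * (v * pos (d.2 0).2 n) =
          (pos (d.2 0).2 n')⁻¹ * pos (d.2 0).2 n := by group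
        rw [e] at h3
        exact hn'.2.2.2 n hn.2.1 hne h3
  -- the intersection
  have hanti : Antitone fun m : ℕ => {ω : Γ → Dat S | Alive (chd h M N t) ω m 1} :=
    antitone_nat_of_succ_le fun m ω hω => alive_anti _ ω m 1 hω
  have hlim := tendsto_measure_iInter_atTop (μ := law Γ S lam)
    (s := fun m : ℕ => {ω : Γ → Dat S | Alive (chd h M N t) ω m 1})
    (fun m => (meas_alive (chd h M N t) (meas_chd h M N t) m 1).nullMeasurableSet) hanti
    ⟨0, measure_ne_top _ _⟩
  have hr2 : r ≤ law Γ S lam (⋂ m : ℕ, {ω : Γ → Dat S | Alive (chd h M N t) ω m 1}) :=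
    ge_of_tendsto' hlim hgws
  refine lt_of_lt_of_le (lt_of_lt_of_le hr0 hr2) (measure_mono ?_)
  intro ω hω
  rw [Set.mem_iInter] at hω
  show {v | Visited (mg S) t 1 ω v}.Infinite
  intro hfin
  obtain ⟨F, hF, hF2⟩ := alive_visited hM N t ω hfin.toFinset.card 1 Visited.root
    (hω hfin.toFinset.card)
  have h3 : F ⊆ hfin.toFinset := fun x hx => by
    rw [Set.Finite.mem_toFinset]
    exact (hF2 x hx).1
  have h4 := Finset.card_le_card h3
  omega

end Pool.Agent.W2helper71.FD
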