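import Pool.Agent.W2helper75.FD.Stm5

set_option autoImplicit false

open MeasureTheory ProbabilityTheory Filter Topology
open scoped ENNReal NNReal

namespace Pool.Agent.W2helper71.FD.Pln

open Pool.Agent.W2helper75.FD

theorem mem_iff {Γ : Type} [Group Γ] (L : Subgroup Γ) (g₀ h : Γ) :
    h ∈ L.comap (MulAut.conj g₀).toMonoidHom ↔ g₀ * h * g₀⁻¹ ∈ L := Iff.rfl

theorem exists_word {Γ : Type} [Group Γ] (S : Finset Γ) (hS : ∀ s ∈ S, s⁻¹ ∈ S)
    (hc : Subgroup.closure (S : Set Γ) = ⊤) (f : Γ) :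
    ∃ l : List S, (l.map (Subtype.val : S → Γ)).prod = f := by
  have hf : f ∈ Submonoid.closure ((S : Set Γ) ∪ (S : Set Γ)⁻¹) := by
    rw [← Subgroup.closure_toSubmonoid, hc]
    trivial
  obtain ⟨l, hl, hp⟩ := Submonoid.exists_list_of_mem_closure hf
  have hl' : ∀ y ∈ l, y ∈ S := by
    intro y hy
    rcases hl y hy with h | h
    · exact h
    · have := hS _ (Set.mem_inv.mp h)
      rwa [inv_inv] at this
  lift l to List S using hl'
  exact ⟨l, hp⟩

theorem pln : P_PLN := by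
  intro Γ _ S hS hc ⟨L, p, m, F, h1, h2, h3, h4, h5⟩
  classical
  obtain ⟨g₀, hg₀⟩ := h3 0 le_rfl le_rfl
  let M : Subgroup Γ := L.comap (MulAut.conj g₀).toMonoidHom
  let st : Setoid Γ := QuotientGroup.rightRel M
  have hrel : ∀ a b : Γ, st a b ↔ g₀ * (b * a⁻¹) * g₀⁻¹ ∈ L := by
    intro a b
    rw [← mem_iff]
    exact QuotientGroup.rightRel_apply
  let V : Type := Quotient st
  let φ : Γ → V := fun g => Quotient.mk st g
  have hφ : ∀ a b : Γ, φ a = φ b ↔ g₀ * (b * a⁻¹) * g₀⁻¹ ∈ L := by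
    intro a b
    rw [← hrel]
    exact Quotient.eq
  let mv : V → S → V := fun x s => Quotient.map' (s₁ := st) (s₂ := st) (fun g => g * (s : Γ)) (by
    intro a b hab
    have hab' := (hrel a b).mp hab
    refine (hrel _ _).mpr ?_
    have : g₀ * (b * (s : Γ) * (a * (s : Γ))⁻¹) * g₀⁻¹ = g₀ * (b * a⁻¹) * g₀⁻¹ := by group
    rw [this]; exact hab') x
  have hmv : ∀ g (s : S), mv (φ g) s = φ (g * s) := fun g s => rfl
  let q : V → ℤ × ℤ := fun x => Quotient.liftOn' x (fun g => p (g₀ * g)) (by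
    intro a b hab
    have hab' := (hrel a b).mp hab
    show p (g₀ * a) = p (g₀ * b)
    have := h1 _ hab' (g₀ * a)
    rw [← this]
    congr 1
    group)
  have hq : ∀ g, q (φ g) = p (g₀ * g) := fun g => rfl
  have hsurj : Function.Surjective φ := fun x => Quotient.exists_rep x
  choose D hD using h4
  choose w hw using exists_word S hS hc
  have hrun : ∀ (l : List S) (g : Γ),
      run mv (φ g) l = φ (g * (l.map (Subtype.val : S → Γ)).prod) := by
    intro l
    induction l with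
    | nil => intro g; simp [run]
    | cons a l ih =>
      intro g
      have e : run mv (φ g) (a :: l) = run mv (mv (φ g) a) l := rfl
      rw [e, hmv, ih, List.map_cons, List.prod_cons, mul_assoc]
  refine ⟨V, mv, fun s => ⟨(s : Γ)⁻¹, hS _ s.2⟩, q, m, ∑ s ∈ S, D s, ∑ f ∈ F, (w f).length, φ,
    ?_, ?_, hsurj, ?_, ?_, ?_⟩
  · intro s
    exact Subtype.ext (inv_inv _)
  · intro x s
    obtain ⟨g, rfl⟩ := hsurj x
    rw [hmv, hmv]
    show φ (g * (s : Γ) * (s : Γ)⁻¹) = φ g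
    rw [mul_inv_cancel_right]
  · refine ⟨?_, ?_, ?_, ?_⟩
    · intro z
      obtain ⟨A, hA, hA2⟩ := h2 z
      have hsub : {x | q x = z} ⊆ ((A.image fun a => φ (g₀⁻¹ * a) : Finset V) : Set V) := by
        intro x hx
        obtain ⟨g, rfl⟩ := hsurj x
        obtain ⟨a, ha, ha2⟩ := hA2 (g₀ * g) hx
        rw [Finset.coe_image]
        refine ⟨a, ha, ?_⟩
        show φ (g₀⁻¹ * a) = φ g
        rw [hφ]
        have : g₀ * (g * (g₀⁻¹ * a)⁻¹) * g₀⁻¹ = g₀ * g * a⁻¹ := by group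
        rw [this]; exact ha2
      refine ⟨(Finset.finite_toSet _).subset hsub, ?_⟩
      refine (Set.ncard_le_ncard hsub (Finset.finite_toSet _)).trans ?_
      rw [Set.ncard_coe_finset]
      exact Finset.card_image_le.trans hA
    · intro z hz1 hz2
      obtain ⟨g, hg⟩ := h3 z hz1 hz2
      refine ⟨φ (g₀⁻¹ * g), ?_⟩
      rw [hq, mul_inv_cancel_left, hg]
    · intro x s
      obtain ⟨g, rfl⟩ := hsurj x
      rw [hmv, hq, hq, ← mul_assoc]
      have hle : (D s : ℤ) ≤ ((∑ s ∈ S, D s : ℕ) : ℤ) := by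
        exact_mod_cast Finset.single_le_sum (f := fun s => D s) (fun _ _ => Nat.zero_le _) s.2
      exact ⟨(hD s (g₀ * g)).1.trans hle, (hD s (g₀ * g)).2.trans hle⟩
    · intro x y hxy1 hxy2
      obtain ⟨g, rfl⟩ := hsurj x
      obtain ⟨g', rfl⟩ := hsurj y
      obtain ⟨f, hf, hf2⟩ := h5 (g₀ * g) (g₀ * g') hxy1 hxy2
      refine ⟨w f, ?_, ?_⟩
      · exact Finset.single_le_sum (f := fun f => (w f).length) (fun _ _ => Nat.zero_le _) hf
      · rw [hrun, hw, eq_comm, hφ]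
        have : g₀ * (g * f * g'⁻¹) * g₀⁻¹ = g₀ * g * f * (g₀ * g')⁻¹ := by group
        rw [this]; exact hf2
  · rw [hq, mul_one, hg₀]
  · intro g s
    exact (hmv g s).symm

end Pool.Agent.W2helper71.FD.Pln
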