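import Pool.Agent.W2helper75.FD.Stm

/-!
# Project FD (helper75, MP_e2f79e_pr), piece RECZ
-/

set_option autoImplicit false

open MeasureTheory ProbabilityTheory Filter Topology
open scoped ENNReal NNReal

namespace Pool.Agent.W2helper71.FD

open Pool.Agent.W2helper75.FD

lemma exists_bound {J S : Type} [Finite J] [Finite S] (c : J → S → ℤ × ℤ) :
    ∃ L : ℕ, ∀ i s, (c i s).1.natAbs ≤ L ∧ (c i s).2.natAbs ≤ L := by
  classical
  have := Fintype.ofFinite J
  have := Fintype.ofFinite S
  refine ⟨∑ i, ∑ s, ((c i s).1.natAbs + (c i s).2.natAbs), fun i s => ?_⟩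
  have h1 : (c i s).1.natAbs + (c i s).2.natAbs ≤ ∑ s, ((c i s).1.natAbs + (c i s).2.natAbs) :=
    Finset.single_le_sum (f := fun s => (c i s).1.natAbs + (c i s).2.natAbs)
      (fun _ _ => Nat.zero_le _) (Finset.mem_univ s)
  have h2 : ∑ s, ((c i s).1.natAbs + (c i s).2.natAbs) ≤
      ∑ i, ∑ s, ((c i s).1.natAbs + (c i s).2.natAbs) :=
    Finset.single_le_sum (f := fun i => ∑ s, ((c i s).1.natAbs + (c i s).2.natAbs))
      (fun _ _ => Nat.zero_le _) (Finset.mem_univ i)
  omega

theorem recz (h1 : P_CAP) (h2 : P_REC) (h3 : P_WLK) : P_RECZ := by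
  classical
  intro J S _ _ _ _ _ n c inv hinv hmv hconn x y δ hδ
  refine h3 ((ℤ × ℤ) × J) S (mvp n c) x y ?_ δ hδ
  refine h2 ((ℤ × ℤ) × J) S (mvp n c) inv hinv hmv hconn y ?_ x
  intro ε hε
  obtain ⟨L, hL⟩ := exists_bound c
  have hJ : Nonempty J := ⟨y.2⟩
  have hJ0 : (0 : ℝ) < Fintype.card J := by exact_mod_cast Fintype.card_pos
  have hS0 : (0 : ℝ) < Fintype.card S := by exact_mod_cast Fintype.card_pos
  obtain ⟨F, hF0, hFnn, hF1, M, hFM, hFe⟩ := h1 L (ε / (Fintype.card J * Fintype.card S))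
    (by positivity)
  refine ⟨fun x => F (x.1 - y.1), by simp [hF0], fun x => hFnn _, fun x => hF1 _, ?_, ?_⟩
  · -- finite support
    have hfin : (((Finset.Icc (-(M : ℤ)) M ×ˢ Finset.Icc (-(M : ℤ)) M) ×ˢ
        (Finset.univ : Finset J) : Finset ((ℤ × ℤ) × J)) : Set ((ℤ × ℤ) × J)).Finite :=
      Finset.finite_toSet _
    have hpre : ((fun x : (ℤ × ℤ) × J => (x.1 - y.1, x.2)) ⁻¹'
        (((Finset.Icc (-(M : ℤ)) M ×ˢ Finset.Icc (-(M : ℤ)) M) ×ˢ
        (Finset.univ : Finset J) : Finset ((ℤ × ℤ) × J)) : Set ((ℤ × ℤ) × J))).Finite := by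
      refine hfin.preimage (Set.injOn_of_injective ?_)
      rintro ⟨a, i⟩ ⟨b, j⟩ h
      simp only [Prod.mk.injEq, sub_left_inj] at h
      exact Prod.ext h.1 h.2
    refine hpre.subset ?_
    intro x hx
    have hx' : F (x.1 - y.1) ≠ 0 := hx
    have h4 : ¬ M < max (x.1 - y.1).1.natAbs (x.1 - y.1).2.natAbs := fun h => hx' (hFM _ h)
    rw [not_lt, max_le_iff] at h4
    simp only [Set.mem_preimage, Finset.coe_product, Finset.coe_Icc, Finset.coe_univ,
      Set.mem_prod, Set.mem_Icc, Set.mem_univ, and_true]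
    omega
  · intro A
    set B : Finset (ℤ × ℤ) := (A.image Prod.fst).image fun z => z - y.1 with hB
    have key : ∀ i s, ∑ z ∈ B, (F z - F (z + c i s)) ^ 2 ≤
        ε / (Fintype.card J * Fintype.card S) := fun i s => hFe _ (hL i s).1 (hL i s).2 B
    have hsub : A ⊆ A.image Prod.fst ×ˢ (Finset.univ : Finset J) := by
      intro x hx
      simp only [Finset.mem_product, Finset.mem_univ, and_true]
      exact Finset.mem_image_of_mem _ hx
    calc ∑ x ∈ A, ∑ s, (F (x.1 - y.1) - F ((mvp n c x s).1 - y.1)) ^ 2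
        ≤ ∑ x ∈ A.image Prod.fst ×ˢ (Finset.univ : Finset J),
            ∑ s, (F (x.1 - y.1) - F ((mvp n c x s).1 - y.1)) ^ 2 :=
          Finset.sum_le_sum_of_subset_of_nonneg hsub fun _ _ _ =>
            Finset.sum_nonneg fun _ _ => sq_nonneg _
      _ = ∑ i : J, ∑ s, ∑ z ∈ A.image Prod.fst,
            (F (z - y.1) - F (z - y.1 + c i s)) ^ 2 := by
          rw [Finset.sum_product_right]
          refine Finset.sum_congr rfl fun i _ => ?_
          rw [Finset.sum_comm]
          refine Finset.sum_congr rfl fun s _ => Finset.sum_congr rfl fun z _ => ?_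
          have : z + c i s - y.1 = z - y.1 + c i s := by abel
          simp only [mvp, this]
      _ = ∑ i : J, ∑ s, ∑ z ∈ B, (F z - F (z + c i s)) ^ 2 := by
          refine Finset.sum_congr rfl fun i _ => Finset.sum_congr rfl fun s _ => ?_
          rw [hB]
          exact (Finset.sum_image (f := fun z => (F z - F (z + c i s)) ^ 2)
            (g := fun z => z - y.1) fun a _ b _ hab => sub_left_injective hab).symm
      _ ≤ ∑ i : J, ∑ s : S, ε / (Fintype.card J * Fintype.card S) :=
          Finset.sum_le_sum fun i _ => Finset.sum_le_sum fun s _ => key i s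
      _ = ε := by
          simp only [Finset.sum_const, Finset.card_univ, nsmul_eq_mul]
          field_simp

end Pool.Agent.W2helper71.FD
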